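import Pool.Agent.Work.MP_82f4f8_an.Full.Scale

/-!
# Potentials of Fekete points on a square of capacity one

The question: if `Γ` is a square of logarithmic capacity `1`, is `V_n - U = O(1/n)` on every closed
set at positive distance from `Γ`, uniformly over the Fekete point sets of `Γ`? The answer is yes.
-/

set_option autoImplicit false

noncomputable section

namespace Pool.Agent.Results.MP_82f4f8_an.FeketeOnSquares

open Filter Topology MeasureTheory

/-- The square with centre `c` and vertices `c + v`, `c + i v`, `c - v`, `c - i v`, as a curve: the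
boundary of the convex hull of the vertices. With `v ≠ 0` these are all the squares of the plane, in
every position and of every size. -/
def square (c v : ℂ) : Set ℂ :=
  frontier (convexHull ℝ {c + v, c + Complex.I * v, c - v, c - Complex.I * v})

/-- The unbounded component `Ω` of the complement of `Γ`: the points `z` whose connected component in
the complement of `Γ` is unbounded (for `z` on `Γ` that component is empty). -/
def Omega (Γ : Set ℂ) : Set ℂ :=
  {z | ¬ Bornology.IsBounded (connectedComponentIn Γᶜ z)}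

/-- `φ` is a conformal map of `Ω ∪ {∞}` onto `{|w| > 1} ∪ {∞}` with `φ(∞) = ∞`: it is holomorphic
and injective on `Ω`, its image is `{|w| > 1}`, and `φ z` tends to infinity as `z` does (then the
singularity at infinity is removable, so that `φ` is conformal there as well). -/
structure IsExteriorMap (Γ : Set ℂ) (φ : ℂ → ℂ) : Prop where
  differentiableOn : DifferentiableOn ℂ φ (Omega Γ)
  injOn : Set.InjOn φ (Omega Γ)
  image_eq : φ '' Omega Γ = {w : ℂ | 1 < ‖w‖}
  tendsto_infinity : Tendsto φ (Bornology.cobounded ℂ) (Bornology.cobounded ℂ)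

/-- `U(z) = log |φ(z)|` for `z` in `Ω`, and `U(z) = 0` elsewhere, in particular for `z` in the
bounded component `G`. -/
def U (Γ : Set ℂ) (φ : ℂ → ℂ) : ℂ → ℝ :=
  (Omega Γ).indicator fun z => Real.log ‖φ z‖

/-- The product of the distances `|z_j - z_k|` over `j < k`. -/
def distProd {n : ℕ} (z : Fin n → ℂ) : ℝ :=
  ∏ j, ∏ k ∈ Finset.Ioi j, ‖z j - z k‖

/-- `z` is an `n`th order Fekete point set of `Γ`: an `n`-tuple of points of `Γ` that maximises the
product of the distances over all `n`-tuples of points of `Γ`. -/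
def IsFekete (Γ : Set ℂ) {n : ℕ} (z : Fin n → ℂ) : Prop :=
  (∀ k, z k ∈ Γ) ∧ ∀ y : Fin n → ℂ, (∀ k, y k ∈ Γ) → distProd y ≤ distProd z

/-- The potential `V_n(z) = (1/n) ∑ log |z - z_k|` of charges `1/n` at the points `p k = z_k`. -/
def V {n : ℕ} (p : Fin n → ℂ) (z : ℂ) : ℝ :=
  1 / (n : ℝ) * ∑ k, Real.log ‖z - p k‖

/-- `κ` is the logarithmic capacity of `Γ`, defined by energies: `κ > 0` and `log κ` is the supremum
of `∬ log |z - w| dν(z) dν(w)` over the probability measures `ν` on `Γ` of finite energy. (Finite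
energy: `ν` has no atoms and the kernel `log |z - w|` is integrable; for every other `ν` on a compact
`Γ` the double integral is `-∞`.) -/
def EnergyCapacity (Γ : Set ℂ) (κ : ℝ) : Prop :=
  0 < κ ∧ IsLUB {x : ℝ | ∃ ν : Measure ℂ, IsProbabilityMeasure ν ∧ ν Γᶜ = 0 ∧
    (∀ z, ν {z} = 0) ∧ Integrable (fun q : ℂ × ℂ => Real.log ‖q.1 - q.2‖) (ν.prod ν) ∧
    x = ∫ q, Real.log ‖q.1 - q.2‖ ∂(ν.prod ν)} (Real.log κ)

/-- `κ` is the logarithmic capacity of `Γ`, defined as the transfinite diameter: the limit of the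
`2/(n(n-1))`-th powers of the largest product of the distances of `n` points of `Γ`. -/
def TransfiniteDiameter (Γ : Set ℂ) (κ : ℝ) : Prop :=
  Tendsto (fun n : ℕ => (⨆ z : Fin n → Γ, distProd fun k => (z k : ℂ)) ^ (2 / ((n : ℝ) * (n - 1))))
    atTop (𝓝 κ)

/-- `κ` is the logarithmic capacity of `Γ`, defined as the outer conformal radius (that is, by the
Robin constant of `log |φ|`): `|z| / |φ(z)|` tends to `κ` as `z` tends to infinity. -/
def OuterRadius (φ : ℂ → ℂ) (κ : ℝ) : Prop :=
  Tendsto (fun z : ℂ => ‖z‖ / ‖φ z‖) (Bornology.cobounded ℂ) (𝓝 κ)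

open Pool.Agent.Work.MP_82f4f8_an Pool.Agent.Work.MP_82f4f8_an.Full

lemma v0_ne : v0 ≠ 0 := by
  have ha : (aa : ℂ) ≠ 0 := Complex.ofReal_ne_zero.2 aa_pos.ne'
  have h1 : (1 + Complex.I : ℂ) ≠ 0 := fun h => by
    have := congrArg Complex.re h
    simp at this
  exact mul_ne_zero ha h1

lemma square_image (c : ℂ) {v : ℂ} (hv : v ≠ 0) :
    square c v = T c (v / v0) (div_ne_zero hv v0_ne) '' Gam := by
  rw [← square_eq]
  unfold square
  rw [div_mul_cancel₀ _ v0_ne]

lemma Omega_square (c : ℂ) {v : ℂ} (hv : v ≠ 0) :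
    Omega (square c v) = T c (v / v0) (div_ne_zero hv v0_ne) '' Ext := by
  rw [square_image c hv]
  exact exterior_eq

lemma norm_ratio (v : ℂ) : ‖v / v0‖
    = ‖v‖ * Real.Gamma (1 / 4) ^ 2 / (2 * Real.sqrt 2 * Real.pi ^ ((3 : ℝ) / 2)) := by
  have h1 : ‖(1 + Complex.I : ℂ)‖ = Real.sqrt 2 := by
    rw [Complex.norm_def, Complex.normSq_apply]
    norm_num
  have hg : 0 < Real.Gamma (1 / 4 : ℝ) := Real.Gamma_pos_of_pos (by norm_num)
  rw [norm_div, v0, norm_mul, Complex.norm_real, Real.norm_eq_abs, abs_of_pos aa_pos, h1, aa_eq]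
  field_simp

/-- Not part of the result, only a check of the definitions (a classical fact): the square with
vertices `c ± v`, `c ± i v` has capacity `|v| Γ(1/4)^2 / (2 √2 π^{3/2})` in each of the three senses,
and it has an exterior map. -/
theorem capacity_of_square (c : ℂ) {v : ℂ} (hv : v ≠ 0) {κ : ℝ}
    (hκ : κ = ‖v‖ * Real.Gamma (1 / 4) ^ 2 / (2 * Real.sqrt 2 * Real.pi ^ ((3 : ℝ) / 2))) :
    EnergyCapacity (square c v) κ ∧ TransfiniteDiameter (square c v) κ ∧
      (∃ φ : ℂ → ℂ, IsExteriorMap (square c v) φ) ∧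
      ∀ φ : ℂ → ℂ, IsExteriorMap (square c v) φ → OuterRadius φ κ := by
  rw [← norm_ratio] at hκ
  subst hκ
  refine ⟨⟨norm_pos_iff.2 (div_ne_zero hv v0_ne), ?_⟩, ?_, ?_, ?_⟩
  · rw [square_image c hv]
    exact isLUB_energy psiFacts
  · unfold TransfiniteDiameter distProd
    rw [square_image c hv]
    exact tendsto_transfinite psiFacts
  · obtain ⟨φ, h1, h2, h3, h4⟩ :=
      exists_phi_T (c := c) (l := v / v0) (hl := div_ne_zero hv v0_ne) psiFacts
    rw [← Omega_square c hv] at h1 h2 h3
    exact ⟨φ, h1, h2, h3, h4⟩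
  · rintro φ ⟨h1, h2, h3, h4⟩
    rw [Omega_square c hv] at h1 h2 h3
    exact (tendsto_radius psiFacts h1 h2 h3 h4).2

/-- **The answer to Q1 is yes.** Let `Γ` be any square of logarithmic capacity `1` (in any of the
three equivalent senses) and `φ` its exterior conformal map. For every set `K` (closed or not) whose
distance from `Γ` is positive there is a constant `C` such that, for all `n ≥ 2` and every choice of
`n`th order Fekete points of `Γ`, `|V_n(z) - U(z)| ≤ C / n` for all `z` in `K`. -/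
theorem result :
    ∀ c v : ℂ, v ≠ 0 → ∀ φ : ℂ → ℂ, IsExteriorMap (square c v) φ →
      (EnergyCapacity (square c v) 1 ∨ TransfiniteDiameter (square c v) 1 ∨ OuterRadius φ 1) →
      ∀ K : Set ℂ, (∃ δ : ℝ, 0 < δ ∧ ∀ z ∈ K, ∀ y ∈ square c v, δ ≤ dist z y) →
        ∃ C : ℝ, ∀ n : ℕ, 2 ≤ n → ∀ p : Fin n → ℂ, IsFekete (square c v) p →
          ∀ z ∈ K, |V p z - U (square c v) φ z| ≤ C / n := by
  intro c v hv φ hφ hcap K hK
  obtain ⟨δ, hδ, hδK⟩ := hK
  obtain ⟨g1, g2, -, g4⟩ := capacity_of_square c hv rfl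
  have g4 := g4 φ hφ
  rw [← norm_ratio] at g1 g2 g4
  have h1 : ‖v / v0‖ = 1 := by
    rcases hcap with h | h | h
    · have := h.2.unique g1.2
      exact (Real.log_injOn_pos (Set.mem_Ioi.2 one_pos) (Set.mem_Ioi.2 g1.1) this).symm
    · exact (tendsto_nhds_unique h g2).symm
    · exact (tendsto_nhds_unique h g4).symm
  obtain ⟨e1, e2, e3, e4⟩ := hφ
  have hO := Omega_square c hv
  rw [hO] at e1 e2 e3
  obtain ⟨C, hC⟩ := bound_T psiFacts h1 e1 e2 e3 e4 hδ
  refine ⟨C, fun n hn p hp z hz => ?_⟩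
  obtain ⟨hp1, hp2⟩ := hp
  unfold V U
  rw [hO]
  simp only [square_image c hv] at hp1 hp2 hδK
  exact hC n hn p hp1 hp2 z (hδK z hz)

end Pool.Agent.Results.MP_82f4f8_an.FeketeOnSquares
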